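import Pool.Agent.R566.Delayed.Final

/-!
# The delayed k-server problem: a lower bound of k for all k ≥ 4

There is one (countable) metric space in which the delayed `k`-server problem has
competitiveness at least `k`, for every `k ≥ 4`, every initial configuration and every initially
frozen server.
-/

set_option autoImplicit false

namespace Pool.Agent.Results.MP_f4335c_lc.LowerBoundK

open Pool.Agent.R566.Delayed

/-- **Q1 has a positive answer.**  There is a metric space `M` with `C_{M,k} ≥ k` for every
`k ≥ 4`. -/
theorem result : ∃ (M : Type) (_ : MetricSpace M), ∀ k : ℕ, 4 ≤ k →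
    ∀ (c₀ : Fin k → M) (f₀ : Fin k), ((k : ℝ) : EReal) ≤ competitiveness c₀ f₀ := by
  refine ⟨U, inferInstance, fun k hk => ?_⟩
  obtain ⟨j, rfl⟩ : ∃ j, k = j + 3 + 1 := ⟨k - 4, by omega⟩
  intro c₀ f₀
  unfold competitiveness
  refine le_iInf₂ fun C hC => ?_
  obtain ⟨A, hA⟩ := hC
  exact EReal.coe_le_coe_iff.2 (lower j c₀ f₀ A C hA)

end Pool.Agent.Results.MP_f4335c_lc.LowerBoundK
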